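import Pool.Agent.H78.PB.Stm2

/-! # Project PB, stub NMK (helper38): numerical values at the nodes -/

set_option autoImplicit false

namespace Pool.Agent.H38PB.NMK

open Pool.Agent.H78.PB

lemma node (A B B' k e θ : ℝ) (a b : ℕ) (hA : 0 ≤ A) (hB : 0 ≤ B) (hBB : B ≤ B') (hk : 0 < k)
    (he : 0 < e) (hab : a + b ≠ 0) (h1 : (1 - θ) * (a + b : ℕ) = a) (h2 : θ * (a + b : ℕ) = b)
    (h : A ^ a * B' ^ b ≤ (k ^ 4 * e ^ 2) ^ (a + b)) :
    (A ^ (1 - θ) * B ^ θ / e ^ 2) ^ (1 / 4 : ℝ) ≤ k := by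
  have e1 : (A ^ (1 - θ) * B ^ θ) ^ (a + b) = A ^ a * B ^ b := by
    rw [mul_pow, ← Real.rpow_natCast (A ^ (1 - θ)), ← Real.rpow_natCast (B ^ θ),
      ← Real.rpow_mul hA, ← Real.rpow_mul hB, h1, h2, Real.rpow_natCast, Real.rpow_natCast]
  have e2 : (A ^ (1 - θ) * B ^ θ) ^ (a + b) ≤ (k ^ 4 * e ^ 2) ^ (a + b) := by
    rw [e1]
    refine le_trans ?_ h
    exact mul_le_mul_of_nonneg_left (pow_le_pow_left₀ hB hBB b) (pow_nonneg hA a)
  have e3 : A ^ (1 - θ) * B ^ θ ≤ k ^ 4 * e ^ 2 :=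
    (pow_le_pow_iff_left₀ (by positivity) (by positivity) hab).1 e2
  have e4 : A ^ (1 - θ) * B ^ θ / e ^ 2 ≤ k ^ 4 := by
    rw [div_le_iff₀ (by positivity)]
    exact e3
  have e5 : (A ^ (1 - θ) * B ^ θ / e ^ 2) ^ (1 / 4 : ℝ) ≤ (k ^ 4) ^ (1 / 4 : ℝ) :=
    Real.rpow_le_rpow (by positivity) e4 (by norm_num)
  have e6 : (k ^ 4) ^ (1 / 4 : ℝ) = k := by
    rw [← Real.rpow_natCast, ← Real.rpow_mul hk.le]
    norm_num
  rwa [e6] at e5

lemma c4_nonneg : 0 ≤ c4 := by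
  unfold c4
  exact div_nonneg (Real.Gamma_pos_of_pos (by norm_num)).le (Real.Gamma_pos_of_pos (by norm_num)).le

lemma bb_le (θ r : ℝ) (h : c4 ≤ 29588 / 10000)
    (hr : (17 + (1 - θ ^ 2) / 3 + 64 * ((20 - 7 * θ) / ((2 - θ) * (12 + 2 * θ - θ ^ 2)))) = r)
    (h0 : 0 ≤ r) : 0 ≤ bb θ ∧ bb θ ≤ (29588 / 10000) ^ 4 * r / 81 := by
  unfold bb
  rw [hr]
  have h1 := c4_nonneg
  refine ⟨by positivity, ?_⟩
  have h2 : c4 ^ 4 ≤ (29588 / 10000) ^ 4 := pow_le_pow_left₀ h1 h 4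
  gcongr

theorem t : P_NMK := by
  intro h
  refine ⟨?_, ?_, ?_, ?_⟩
  · have h1 := bb_le (2 / 11) _ h rfl (by norm_num)
    unfold KK
    refine node (aa (2 / 11)) (bb (2 / 11)) _ _ (2 - 2 / 11) (2 / 11) 9 2 ?_ h1.1 h1.2
      (by norm_num) (by norm_num) (by norm_num) (by norm_num) (by norm_num) ?_
    · unfold aa; norm_num
    · unfold aa; norm_num
  · have h1 := bb_le (6 / 13) _ h rfl (by norm_num)
    unfold KK
    refine node (aa (6 / 13)) (bb (6 / 13)) _ _ (2 - 6 / 13) (6 / 13) 7 6 ?_ h1.1 h1.2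
      (by norm_num) (by norm_num) (by norm_num) (by norm_num) (by norm_num) ?_
    · unfold aa; norm_num
    · unfold aa; norm_num
  · have h1 := bb_le (10 / 13) _ h rfl (by norm_num)
    unfold KK
    refine node (aa (10 / 13)) (bb (10 / 13)) _ _ (2 - 10 / 13) (10 / 13) 3 10 ?_ h1.1 h1.2
      (by norm_num) (by norm_num) (by norm_num) (by norm_num) (by norm_num) ?_
    · unfold aa; norm_num
    · unfold aa; norm_num
  · have h1 := bb_le (18 / 49) _ h rfl (by norm_num)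
    unfold KK
    refine node (aa (18 / 49)) (bb (18 / 49)) _ _ (2 - 18 / 49) (18 / 49) 31 18 ?_ h1.1 h1.2
      (by norm_num) (by norm_num) (by norm_num) (by norm_num) (by norm_num) ?_
    · unfold aa; norm_num
    · unfold aa; norm_num

end Pool.Agent.H38PB.NMK
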