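import Pool.Agent.H78.PB.Stm2
import Pool.Agent.N892.BW.ASR

/-! # Project PB, stub NMG (helper38): numerical values of Gamma quotients -/

set_option autoImplicit false

open Filter Topology

namespace Pool.Agent.H38PB.NMG

open Pool.Agent.H78.PB Pool.Agent.N892.BW

/-- a rational lower bound of `(1 + x) ^ r` -/
lemma pade (r u : ℝ) (hr : 0 ≤ r) (hr1 : r ≤ 1) (hu : 1 ≤ u) :
    (1 - r) + (1 + r) * u ≤ u ^ r * ((1 + r) + (1 - r) * u) := by
  have hmono : MonotoneOn (fun u : ℝ => (1 + r) * u ^ r + (1 - r) * u ^ (1 + r) - (1 + r) * u)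
      (Set.Ici 1) := by
    apply monotoneOn_of_deriv_nonneg (convex_Ici 1)
    · apply ContinuousOn.sub
      · apply ContinuousOn.add
        · exact ContinuousOn.mul continuousOn_const
            (continuousOn_id.rpow_const (fun x hx => Or.inr hr))
        · exact ContinuousOn.mul continuousOn_const
            (continuousOn_id.rpow_const (fun x hx => Or.inr (by linarith)))
      · exact (continuous_const.mul continuous_id).continuousOn
    · intro x hx
      rw [interior_Ici] at hx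
      have hx0 : (0 : ℝ) < x := lt_trans one_pos hx
      have d1 : DifferentiableAt ℝ (fun u : ℝ => u ^ r) x :=
        Real.differentiableAt_rpow_const_of_ne r hx0.ne'
      have d2 : DifferentiableAt ℝ (fun u : ℝ => u ^ (1 + r)) x :=
        Real.differentiableAt_rpow_const_of_ne (1 + r) hx0.ne'
      exact (((d1.const_mul _).add (d2.const_mul _)).sub
        (differentiableAt_id.const_mul _)).differentiableWithinAt
    · intro x hx
      rw [interior_Ici] at hx
      have hx0 : (0 : ℝ) < x := lt_trans one_pos hx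
      have d1 : HasDerivAt (fun u : ℝ => u ^ r) (r * x ^ (r - 1)) x :=
        Real.hasDerivAt_rpow_const (Or.inl hx0.ne')
      have d2 : HasDerivAt (fun u : ℝ => u ^ (1 + r)) ((1 + r) * x ^ (1 + r - 1)) x :=
        Real.hasDerivAt_rpow_const (Or.inl hx0.ne')
      have d3 : HasDerivAt (fun u : ℝ => (1 + r) * u ^ r + (1 - r) * u ^ (1 + r) - (1 + r) * u)
          ((1 + r) * (r * x ^ (r - 1)) + (1 - r) * ((1 + r) * x ^ (1 + r - 1)) - (1 + r) * 1) x :=
        ((d1.const_mul _).add (d2.const_mul _)).sub ((hasDerivAt_id x).const_mul _)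
      rw [d3.deriv]
      have e1 : (x ^ (r - 1)) ^ r * (x ^ r) ^ (1 - r) ≤ r * x ^ (r - 1) + (1 - r) * x ^ r :=
        Real.geom_mean_le_arith_mean2_weighted hr (by linarith) (by positivity) (by positivity)
          (by ring)
      have e2 : (x ^ (r - 1)) ^ r * (x ^ r) ^ (1 - r) = 1 := by
        rw [← Real.rpow_mul hx0.le, ← Real.rpow_mul hx0.le, ← Real.rpow_add hx0]
        have : (r - 1) * r + r * (1 - r) = 0 := by ring
        rw [this, Real.rpow_zero]
      rw [e2] at e1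
      have e3 : x ^ (1 + r - 1) = x ^ r := by congr 1; ring
      rw [e3]
      nlinarith
  have h1 := hmono (Set.mem_Ici.2 le_rfl) (Set.mem_Ici.2 hu) hu
  simp only [Real.one_rpow] at h1
  have hu0 : 0 < u := by linarith
  have h2 : u ^ (1 + r) = u * u ^ r := by rw [Real.rpow_add hu0, Real.rpow_one]
  rw [h2] at h1
  nlinarith

lemma Qn_pos (n : ℕ) (s : ℝ) (h0 : 0 < s) (h1 : s < 1) : 0 < Qn n s := by
  unfold Qn
  apply Finset.prod_pos
  intro j _
  have : (0 : ℝ) ≤ j := Nat.cast_nonneg j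
  apply div_pos <;> linarith

lemma Gs_pos (s : ℝ) (h0 : 0 < s) (h1 : s < 1) : 0 < Gs s :=
  div_pos (Real.Gamma_pos_of_pos h0) (Real.Gamma_pos_of_pos (by linarith))

/-- upper bound of `Γ(s)/Γ(1-s)` -/
lemma Gs_le (s : ℝ) (h0 : 0 < s) (h1 : s ≤ 1 / 2) (n : ℕ) (hn : 1 ≤ n) :
    Gs s * (n : ℝ) ^ (1 - 2 * s) ≤ Qn n s := by
  have hG := Gs_pos s h0 (by linarith)
  set g : ℕ → ℝ := fun n => (n : ℝ) ^ (1 - 2 * s) * Gs s / Qn n s with hg
  have step : ∀ n : ℕ, 1 ≤ n → g n ≤ g (n + 1) := by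
    intro n hn
    have hn0 : (1 : ℝ) ≤ n := by exact_mod_cast hn
    have hQ := Qn_pos n s h0 (by linarith)
    have hQ1 : Qn (n + 1) s = Qn n s * ((1 - s + n) / (s + n)) := by
      unfold Qn
      rw [Finset.prod_range_succ]
    simp only [hg]
    rw [hQ1]
    have hp := pade (1 - 2 * s) (((n + 1 : ℕ) : ℝ) / n) (by linarith) (by linarith)
      (by rw [le_div_iff₀ (by linarith)]; push_cast; linarith)
    have hrp : (((n + 1 : ℕ) : ℝ) / n) ^ (1 - 2 * s) =
        ((n + 1 : ℕ) : ℝ) ^ (1 - 2 * s) / (n : ℝ) ^ (1 - 2 * s) :=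
      Real.div_rpow (by positivity) (by positivity) _
    rw [hrp] at hp
    have hx : 0 < (n : ℝ) ^ (1 - 2 * s) := by positivity
    have hp2 : (n : ℝ) ^ (1 - 2 * s) * (1 - s + n) ≤ ((n + 1 : ℕ) : ℝ) ^ (1 - 2 * s) * (s + n) := by
      rw [div_mul_eq_mul_div, le_div_iff₀ hx] at hp
      have e1 : (1 - (1 - 2 * s) + (1 + (1 - 2 * s)) * (((n + 1 : ℕ) : ℝ) / n)) * (n : ℝ) ^ (1 - 2 * s) =
          2 * ((n : ℝ) ^ (1 - 2 * s) * (1 - s + n)) / n := by
        push_cast
        field_simp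
        ring
      have e2 : ((n + 1 : ℕ) : ℝ) ^ (1 - 2 * s) *
          (1 + (1 - 2 * s) + (1 - (1 - 2 * s)) * (((n + 1 : ℕ) : ℝ) / n)) =
          2 * (((n + 1 : ℕ) : ℝ) ^ (1 - 2 * s) * (s + n)) / n := by
        have : (((n + 1 : ℕ) : ℝ) / n) = 1 + 1 / n := by push_cast; field_simp
        rw [this]
        field_simp
        ring
      rw [e1, e2, div_le_div_iff_of_pos_right (by linarith)] at hp
      linarith
    rw [div_le_div_iff₀ hQ (by
      apply mul_pos hQ
      apply div_pos <;> linarith)]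
    have e3 : (n : ℝ) ^ (1 - 2 * s) * Gs s * (Qn n s * ((1 - s + n) / (s + n))) =
        (n : ℝ) ^ (1 - 2 * s) * (1 - s + n) * (Gs s * Qn n s) / (s + n) := by ring
    rw [e3, div_le_iff₀ (by linarith)]
    have h5 : 0 < Gs s * Qn n s := mul_pos hG hQ
    nlinarith
  have hmono : Monotone (fun k : ℕ => g (k + 1)) := by
    apply monotone_nat_of_le_succ
    intro k
    exact step (k + 1) (by omega)
  have hlim : Tendsto (fun k : ℕ => g (k + 1)) atTop (𝓝 1) :=
    (tendsto_add_atTop_iff_nat 1).2 (ASR.t s h0 (by linarith))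
  have h6 := hmono.ge_of_tendsto hlim (n - 1)
  have h7 : n - 1 + 1 = n := by omega
  simp only [h7, hg] at h6
  rw [div_le_one (Qn_pos n s h0 (by linarith))] at h6
  linarith

/-- lower bound of `Γ(s)/Γ(1-s)` -/
lemma le_Gs (s : ℝ) (h0 : 0 < s) (h1 : s < 1 / 2) (n : ℕ) :
    Qn n s ≤ Gs s * (n + s) ^ (1 - 2 * s) := by
  -- `Γ(n+1-s) ≤ Γ(n+s) (n+s)^(1-2s)`
  have hG1 : ∀ (x : ℝ), 0 < x → ∀ n : ℕ, Real.Gamma (x + n) =
      Real.Gamma x * ∏ j ∈ Finset.range n, (x + j) := by
    intro x hx n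
    induction n with
    | zero => simp
    | succ n ih =>
      rw [Finset.prod_range_succ, ← mul_assoc, ← ih]
      have : x + ((n + 1 : ℕ) : ℝ) = (x + n) + 1 := by push_cast; ring
      rw [this, Real.Gamma_add_one (by positivity)]
      ring
  have hn : (0 : ℝ) ≤ n := Nat.cast_nonneg n
  have hlc : Real.Gamma (1 - s + n) ≤ Real.Gamma (s + n) * (n + s) ^ (1 - 2 * s) := by
    have h2 := Real.Gamma_mul_add_mul_le_rpow_Gamma_mul_rpow_Gamma (s := s + n) (t := s + n + 1)
      (a := 2 * s) (b := 1 - 2 * s) (by positivity) (by positivity) (by linarith) (by linarith)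
      (by ring)
    have h3 : 2 * s * (s + n) + (1 - 2 * s) * (s + n + 1) = 1 - s + n := by ring
    rw [h3, Real.Gamma_add_one (by positivity)] at h2
    refine h2.trans (le_of_eq ?_)
    have hGp : 0 < Real.Gamma (s + n) := Real.Gamma_pos_of_pos (by positivity)
    rw [Real.mul_rpow (by positivity) hGp.le, mul_comm ((s + n) ^ (1 - 2 * s)), ← mul_assoc,
      ← Real.rpow_add hGp]
    have : 2 * s + (1 - 2 * s) = 1 := by ring
    rw [this, Real.rpow_one, add_comm s]
  rw [hG1 (1 - s) (by linarith) n, hG1 s h0 n] at hlc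
  have hp1 : 0 < ∏ j ∈ Finset.range n, (s + (j : ℝ)) := Finset.prod_pos fun j _ => by positivity
  have hg1 : 0 < Real.Gamma (1 - s) := Real.Gamma_pos_of_pos (by linarith)
  unfold Qn Gs
  rw [Finset.prod_div_distrib, div_mul_eq_mul_div, div_le_div_iff₀ hp1 hg1]
  nlinarith

theorem t : P_NMG := by
  refine ⟨?_, ?_, ?_⟩
  · have h := Gs_le (1 / 4) (by norm_num) (by norm_num) 25 (by norm_num)
    have e1 : ((25 : ℕ) : ℝ) ^ (1 - 2 * (1 / 4) : ℝ) = 5 := by
      have : ((25 : ℕ) : ℝ) = 5 ^ (2 : ℝ) := by norm_num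
      rw [this, ← Real.rpow_mul (by norm_num)]
      norm_num
    rw [e1] at h
    have e2 : Gs (1 / 4) = c4 := by unfold Gs c4; norm_num
    rw [e2] at h
    have e3 : Qn 25 (1 / 4) ≤ 5 * (29588 / 10000) := by
      unfold Qn
      simp only [Finset.prod_range_succ, Finset.prod_range_zero]
      norm_num
    linarith
  · have h := Gs_le (1 / 6) (by norm_num) (by norm_num) 8 (by norm_num)
    have e1 : ((8 : ℕ) : ℝ) ^ (1 - 2 * (1 / 6) : ℝ) = 4 := by
      have : ((8 : ℕ) : ℝ) = 2 ^ (3 : ℝ) := by norm_num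
      rw [this, ← Real.rpow_mul (by norm_num)]
      norm_num
    rw [e1] at h
    have e2 : Gs (1 / 6) = Real.Gamma (1 / 6) / Real.Gamma (5 / 6) := by unfold Gs; norm_num
    rw [e2] at h
    have e3 : Qn 8 (1 / 6) ≤ 4 * (495 / 100) := by
      unfold Qn
      simp only [Finset.prod_range_succ, Finset.prod_range_zero]
      norm_num
    linarith
  · have hRB : RB (20 / 49) (20 / 49) / Real.pi = Gs (10 / 49) ^ 2 / Gs (20 / 49) := by
      unfold RB Gs
      have a1 : (20 / 49 / 2 : ℝ) = 10 / 49 := by norm_num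
      have a2 : (1 - (20 / 49 + 20 / 49) / 2 : ℝ) = 1 - 20 / 49 := by norm_num
      have a3 : ((20 / 49 + 20 / 49) / 2 : ℝ) = 20 / 49 := by norm_num
      rw [a1, a2, a3]
      have g1 : Real.Gamma (10 / 49) ≠ 0 := (Real.Gamma_pos_of_pos (by norm_num)).ne'
      have g2 : Real.Gamma (1 - 10 / 49) ≠ 0 := (Real.Gamma_pos_of_pos (by norm_num)).ne'
      have g3 : Real.Gamma (20 / 49) ≠ 0 := (Real.Gamma_pos_of_pos (by norm_num)).ne'
      have g4 : Real.Gamma (1 - 20 / 49) ≠ 0 := (Real.Gamma_pos_of_pos (by norm_num)).ne'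
      have hpi := Real.pi_ne_zero
      field_simp
    rw [hRB]
    have h1 := Gs_le (10 / 49) (by norm_num) (by norm_num) 12 (by norm_num)
    have h2 := le_Gs (20 / 49) (by norm_num) (by norm_num) 12
    have p1 := Gs_pos (10 / 49) (by norm_num) (by norm_num)
    have p2 := Gs_pos (20 / 49) (by norm_num) (by norm_num)
    -- bounds for the powers
    have b1 : (43519 / 10000 : ℝ) ≤ ((12 : ℕ) : ℝ) ^ (1 - 2 * (10 / 49) : ℝ) := by
      have e1 : (43519 / 10000 : ℝ) = ((43519 / 10000 : ℝ) ^ (49 : ℝ)) ^ (1 / 49 : ℝ) := by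
        rw [← Real.rpow_mul (by norm_num)]; norm_num
      have e2 : ((12 : ℕ) : ℝ) ^ (1 - 2 * (10 / 49) : ℝ) = ((12 : ℝ) ^ (29 : ℝ)) ^ (1 / 49 : ℝ) := by
        rw [← Real.rpow_mul (by norm_num)]; norm_num
      rw [e1, e2]
      apply Real.rpow_le_rpow (by positivity) _ (by norm_num)
      have f1 : (43519 / 10000 : ℝ) ^ (49 : ℝ) = (43519 / 10000 : ℝ) ^ (49 : ℕ) := by
        rw [← Real.rpow_natCast]; norm_num
      have f2 : (12 : ℝ) ^ (29 : ℝ) = (12 : ℝ) ^ (29 : ℕ) := by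
        rw [← Real.rpow_natCast]; norm_num
      rw [f1, f2]
      norm_num
    have b2 : (((12 : ℕ) : ℝ) + 20 / 49) ^ (1 - 2 * (20 / 49) : ℝ) ≤ 15882 / 10000 := by
      have e1 : (15882 / 10000 : ℝ) = ((15882 / 10000 : ℝ) ^ (49 : ℝ)) ^ (1 / 49 : ℝ) := by
        rw [← Real.rpow_mul (by norm_num)]; norm_num
      have e2 : (((12 : ℕ) : ℝ) + 20 / 49) ^ (1 - 2 * (20 / 49) : ℝ) =
          ((12 + 20 / 49 : ℝ) ^ (9 : ℝ)) ^ (1 / 49 : ℝ) := by
        rw [← Real.rpow_mul (by norm_num)]; norm_num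
      rw [e1, e2]
      apply Real.rpow_le_rpow (by positivity) _ (by norm_num)
      have f1 : (15882 / 10000 : ℝ) ^ (49 : ℝ) = (15882 / 10000 : ℝ) ^ (49 : ℕ) := by
        rw [← Real.rpow_natCast]; norm_num
      have f2 : (12 + 20 / 49 : ℝ) ^ (9 : ℝ) = (12 + 20 / 49 : ℝ) ^ (9 : ℕ) := by
        rw [← Real.rpow_natCast]; norm_num
      rw [f1, f2]
      norm_num
    have q1 : Qn 12 (10 / 49) ≤ 43519 / 10000 * (3847 / 1000) := by
      unfold Qn
      simp only [Finset.prod_range_succ, Finset.prod_range_zero]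
      norm_num
    have q2 : 15882 / 10000 * (1431 / 1000) ≤ Qn 12 (20 / 49) := by
      unfold Qn
      simp only [Finset.prod_range_succ, Finset.prod_range_zero]
      norm_num
    have u1 : Gs (10 / 49) ≤ 3847 / 1000 := by
      have : Gs (10 / 49) * (43519 / 10000) ≤ 43519 / 10000 * (3847 / 1000) :=
        (mul_le_mul_of_nonneg_left b1 p1.le).trans (h1.trans q1)
      linarith
    have u2 : 1431 / 1000 ≤ Gs (20 / 49) := by
      have : 15882 / 10000 * (1431 / 1000) ≤ Gs (20 / 49) * (15882 / 10000) :=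
        (q2.trans h2).trans (mul_le_mul_of_nonneg_left b2 p2.le)
      linarith
    rw [div_le_iff₀ p2]
    have u3 : Gs (10 / 49) ^ 2 ≤ (3847 / 1000) ^ 2 := pow_le_pow_left₀ p1.le u1 2
    have u4 : (3847 / 1000 : ℝ) ^ 2 ≤ 1035 / 100 * (1431 / 1000) := by norm_num
    linarith

end Pool.Agent.H38PB.NMG
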